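import Pool.Agent.Lib.MP_d98eb9_al.W.Linnell

/-! The trace of an idempotent bounds the rank of every free module that embeds in its range. -/

namespace Pool.Agent.Lib.MP_d98eb9_al.W

namespace L2

open ContinuousLinearMap

section Abs

variable {V W : Type} [NormedAddCommGroup V] [InnerProductSpace ℝ V] [CompleteSpace V]
  [NormedAddCommGroup W] [InnerProductSpace ℝ W] [CompleteSpace W]

theorem abs_bound' {ι κ T : Type} [Fintype ι] [Fintype κ] (A : V →L[ℝ] W)
    (hA : ∀ x, A x = 0 → x = 0) (e : ι → V) (he : ∀ i, ‖e i‖ = 1) (e' : κ → W)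
    (τ : T → V →L[ℝ] V)
    (hτ : ∀ t x, (adjoint A) (A (τ t x)) = τ t ((adjoint A) (A x)))
    (htr : ∀ R : V →L[ℝ] V, (∀ t x, R (τ t x) = τ t (R x)) →
      ∑ i, inner ℝ ((A ∘L R) (e i)) (A (e i))
        = ∑ j, inner ℝ (adjoint (A ∘L R) (e' j)) (adjoint A (e' j))) :
    (Fintype.card ι : ℝ) < ∑ j, ‖e' j‖ ^ 2 + 1 := by
  classical
  have hd : Dense (Set.range (adjoint A)) := by
    have h1 : (adjoint A).rangeᗮ = ⊥ := by
      rw [orthogonal_range, adjoint_adjoint, Submodule.eq_bot_iff]
      intro x hx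
      exact hA x hx
    have h2 := (Submodule.topologicalClosure_eq_top_iff (K := (adjoint A).range)).2 h1
    have h3 := Submodule.dense_iff_topologicalClosure_eq_top.2 h2
    exact h3
  set η : ℝ := 1 / (4 * ((Fintype.card ι : ℝ) + 1)) with hη
  have hηpos : 0 < η := by positivity
  have hy : ∀ i, ∃ y : W, ‖e i - adjoint A y‖ < η := by
    intro i
    obtain ⟨z, ⟨y, rfl⟩, hz⟩ := hd.exists_dist_lt (e i) hηpos
    exact ⟨y, by rwa [dist_eq_norm] at hz⟩
  choose y hy using hy
  set M : ℝ := ∑ i, ‖y i‖ + 1 with hM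
  have hMpos : 0 < M := by positivity
  have hyM : ∀ i, ‖y i‖ ≤ M := by
    intro i
    have := Finset.single_le_sum (f := fun i => ‖y i‖) (fun i _ => norm_nonneg _)
      (Finset.mem_univ i)
    linarith
  set δ : ℝ := η / M with hδ
  have hδpos : 0 < δ := by positivity
  have hε : 0 < δ ^ 2 := by positivity
  obtain ⟨R, hR1, hR2⟩ := exists_res A hε
  have hRτ : ∀ t x, R (τ t x) = τ t (R x) := by
    intro t x
    conv_lhs => rw [← hR1 x]
    rw [map_add, map_smul, ← hτ, hR2]
  have hsym : ∀ x z, inner ℝ (R x) z = inner ℝ x (R z) := by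
    intro x z
    conv_lhs => rw [← hR1 z]
    conv_rhs => rw [← hR1 x]
    simp only [inner_add_left, inner_add_right, adjoint_inner_left, adjoint_inner_right,
      real_inner_smul_left, real_inner_smul_right]
  have hadj : ∀ w, adjoint (A ∘L R) w = R (adjoint A w) := by
    intro w
    refine ext_inner_right ℝ fun v => ?_
    rw [adjoint_inner_left, hsym, adjoint_inner_left, comp_apply]
  have h1 := htr R hRτ
  have h2 : ∀ j, inner ℝ (adjoint (A ∘L R) (e' j)) (adjoint A (e' j)) ≤ ‖e' j‖ ^ 2 := by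
    intro j
    rw [hadj, adjoint_inner_right]
    have h3 := (est_adj A hε (hR1 (adjoint A (e' j)))).1
    have h4 := real_inner_le_norm (A (R (adjoint A (e' j)))) (e' j)
    nlinarith [norm_nonneg (e' j)]
  have h3 : ∀ i, 1 - 2 * η ≤ inner ℝ ((A ∘L R) (e i)) (A (e i)) := by
    intro i
    rw [comp_apply, ← adjoint_inner_left]
    have h4 : adjoint A (A (R (e i))) = e i - δ ^ 2 • R (e i) := eq_sub_of_add_eq (hR1 _)
    rw [h4, inner_sub_left, real_inner_self_eq_norm_sq, he, real_inner_smul_left]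
    have h5 := real_inner_le_norm (R (e i)) (e i)
    rw [he, mul_one] at h5
    have h6 : R (e i) = R (e i - adjoint A (y i)) + R (adjoint A (y i)) := by
      rw [← map_add, sub_add_cancel]
    have h7 := est_small A (hR1 (e i - adjoint A (y i)))
    have h8 := (est_adj A hε (hR1 (adjoint A (y i)))).2
    have h9 : δ * ‖R (adjoint A (y i))‖ ≤ ‖y i‖ := by
      rw [← mul_pow] at h8
      exact (pow_le_pow_iff_left₀ (by positivity) (norm_nonneg _) two_ne_zero).1 h8
    have h10 : δ * M = η := by rw [hδ]; field_simp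
    have h11 : ‖R (e i)‖ ≤ ‖R (e i - adjoint A (y i))‖ + ‖R (adjoint A (y i))‖ := by
      conv_lhs => rw [h6]
      exact norm_add_le _ _
    have h12 : δ ^ 2 * ‖R (adjoint A (y i))‖ ≤ η := by
      have := mul_le_mul_of_nonneg_left (h9.trans (hyM i)) hδpos.le
      nlinarith
    have h13 := mul_le_mul_of_nonneg_left (h5.trans h11) hε.le
    have := hy i
    nlinarith
  have h4 : (Fintype.card ι : ℝ) * (1 - 2 * η) ≤ ∑ j, ‖e' j‖ ^ 2 := by
    calc (Fintype.card ι : ℝ) * (1 - 2 * η) = ∑ _i : ι, (1 - 2 * η) := by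
          rw [Finset.sum_const, Finset.card_univ, nsmul_eq_mul]
      _ ≤ _ := Finset.sum_le_sum fun i _ => h3 i
      _ = _ := h1
      _ ≤ _ := Finset.sum_le_sum fun j _ => h2 j
  have h5 : (Fintype.card ι : ℝ) * (2 * η) < 1 := by
    have h0 : (0 : ℝ) ≤ Fintype.card ι := Nat.cast_nonneg _
    rw [hη, mul_one_div, ← mul_div_assoc, div_lt_one (by positivity)]
    linarith
  nlinarith

end Abs

variable {H : Type} [Group H] {ι κ : Type} [Fintype ι] [Fintype κ]

theorem card_lt (A : F ι H →L[ℝ] F κ H) (hA : ∀ h x, A (tau ι h x) = tau κ h (A x))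
    (hinj : ∀ x, A x = 0 → x = 0) (P : F κ H →L[ℝ] F κ H)
    (hP : ∀ h x, P (tau κ h x) = tau κ h (P x)) (hPP : ∀ x, P (P x) = P x)
    (hPA : ∀ x, P (A x) = A x) : (Fintype.card ι : ℝ) < ∑ j, P (bs j 1) j 1 + 1 := by
  let M : Submodule ℝ (F κ H) := (P - 1).ker
  have hM : ∀ x, x ∈ M ↔ P x = x := fun x => by
    change P x - x = 0 ↔ _
    exact sub_eq_zero
  have : CompleteSpace M := (ContinuousLinearMap.isClosed_ker (P - 1)).completeSpace_coe
  let Q : F κ H →L[ℝ] F κ H := M.starProjection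
  have hQM : ∀ x, P (Q x) = Q x := fun x => (hM _).1 (M.starProjection_apply_mem x)
  have hQ : ∀ x, P x = x → Q x = x := fun x hx =>
    Submodule.starProjection_eq_self_iff.2 ((hM x).2 hx)
  have hsym : ∀ x y, inner ℝ (Q x) y = inner ℝ x (Q y) := fun x y =>
    Submodule.inner_starProjection_left_eq_right M x y
  have hadj : ∀ y, adjoint Q y = Q y := fun y =>
    ext_inner_right ℝ fun v => by rw [adjoint_inner_left, hsym]
  have hQτ : ∀ h x, Q (tau κ h x) = tau κ h (Q x) := fun h x => by
    refine Submodule.eq_starProjection_of_mem_orthogonal ((hM _).2 (by rw [hP, hQM])) ?_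
    rw [← map_sub, Submodule.mem_orthogonal']
    intro v hv
    rw [inner_tau_left]
    exact (Submodule.mem_orthogonal' _ _).1 (M.sub_starProjection_mem_orthogonal x) _
      ((hM _).2 (by rw [hP, (hM v).1 hv]))
  have hs : ∑ j, ‖Q (bs j (1 : H))‖ ^ 2 = ∑ j, P (bs j 1) j 1 := by
    have h1 := trace_eq P Q hP hQτ
    calc ∑ j, ‖Q (bs j (1 : H))‖ ^ 2
        = ∑ j, inner ℝ (adjoint P (bs j (1 : H))) (adjoint Q (bs j 1)) :=
          Finset.sum_congr rfl fun j _ => by
            rw [hadj, adjoint_inner_left, hQM, ← real_inner_self_eq_norm_sq, hsym,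
              hQ _ (hQM _)]
      _ = _ := h1.symm
      _ = _ := Finset.sum_congr rfl fun j _ => by
            rw [← hsym, hQ _ (hPP _), real_inner_comm, inner_bs]
  have ha : ∀ U : F ι H →L[ℝ] F κ H, (∀ x, P (U x) = U x) → ∀ y, adjoint U (Q y) = adjoint U y :=
    fun U hU y => ext_inner_right ℝ fun v => by
      rw [adjoint_inner_left, adjoint_inner_left, hsym, hQ _ (hU v)]
  rw [← hs]
  refine abs_bound' A hinj (fun i => bs i (1 : H)) (fun i => norm_bs i 1)
    (fun j => Q (bs j (1 : H))) (tau ι) (fun t x => ?_) fun R hR => ?_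
  · rw [hA, adj_tau A hA]
  · simp only [ha A hPA, ha (A ∘L R) fun x => hPA _]
    refine trace_eq (A ∘L R) A (fun h x => ?_) hA
    rw [comp_apply, comp_apply, hR, hA]

open Linnell MonoidAlgebra

/-- The operator of a matrix over the group ring. -/
noncomputable def opM (M : ι → κ → ZG H) : F ι H →L[ℝ] F κ H :=
  op (fun j i => (M i j).coeff.support) fun j i c => ((M i j).coeff c : ℝ)

lemma opM_apply (M : ι → κ → ZG H) (x : F ι H) (k : κ) : opM M x k = ∑ i, T (M i k) (x i) := by
  ext c
  rw [opM, op_apply]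
  change _ = lp.evalₗ (𝕜 := ℝ) (fun _ : H => ℝ) 2 c _
  rw [map_sum]
  exact Finset.sum_congr rfl fun i _ => (T_apply (M i k) (x i) c).symm

lemma opM_opM {μ : Type} [Fintype μ] (M : ι → κ → ZG H) (N : κ → μ → ZG H) (x : F ι H) :
    opM N (opM M x) = opM (fun i k => ∑ j, M i j * N j k) x := by
  refine PiLp.ext fun k => ?_
  simp only [opM_apply, map_sum, T_mul, sum_apply]
  exact Finset.sum_comm

lemma opM_diag (M : κ → κ → ZG H) (j : κ) : opM M (bs j 1) j 1 = ((M j j).coeff 1 : ℝ) := by
  classical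
  rw [opM, op_apply, Finset.sum_eq_single j]
  · simp only [bs_apply, true_and, mul_one, mul_ite, mul_zero, Finset.sum_ite_eq']
    split_ifs with h
    · rfl
    · rw [Finsupp.notMem_support_iff.1 h, Int.cast_zero]
  · intro i _ hi
    simp [bs_apply, hi]
  · simp

/-- If a matrix is injective on square-summable vectors and is fixed by an idempotent, the number
of rows is at most the trace of the idempotent. -/
theorem card_le_trace (M : ι → κ → ZG H) (N : κ → κ → ZG H)
    (hN : ∀ i k, ∑ j, N i j * N j k = N i k) (hM : ∀ i k, ∑ j, M i j * N j k = M i k)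
    (hinj : ∀ x : ι → E H, (∀ k, ∑ i, T (M i k) (x i) = 0) → ∀ i, x i = 0) :
    (Fintype.card ι : ℤ) ≤ ∑ j, (N j j).coeff 1 := by
  have h := card_lt (opM M) (op_tau _ _) (fun x hx => PiLp.ext fun i =>
      hinj (fun i => x i) (fun k => by rw [← opM_apply, hx]; rfl) i) (opM N) (op_tau _ _)
    (fun x => by simp only [opM_opM, hN]) fun x => by simp only [opM_opM, hM]
  simp only [opM_diag] at h
  have h2 : (Fintype.card ι : ℤ) < ∑ j, (N j j).coeff 1 + 1 := by exact_mod_cast h
  omega

lemma inner_T (g : H) (x y : E H) :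
    inner ℝ (T (single g⁻¹ 1) x) y = inner ℝ x (T (single g 1) y) := by
  rw [T_single, T_single, ← inner_re (Equiv.mulLeft g)]
  congr 1
  ext c
  simp [re_apply]

lemma T_one (x : E H) : T (1 : ZG H) x = x := by
  rw [MonoidAlgebra.one_def, T_single]
  ext c
  simp [re_apply]

lemma inner_T' (g : H) (x y : E H) :
    inner ℝ (T (single g⁻¹ 1 - 1) x) y = inner ℝ x (T (single g 1 - 1) y) := by
  simp only [map_sub, sub_apply, T_one, inner_sub_left, inner_sub_right, inner_T]

lemma fix_zero (x : E H) {c : H} (hc : ¬ IsOfFinOrder c) {n m : ℤ} (hn : n * m = 1)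
    (h : T (single c n) x = x) : x = 0 := by
  have h1 : ∀ g, (n : ℝ) * x (c * g) = x g := fun g => by
    conv_rhs => rw [← h, single_eq_zsmul, map_zsmul, T_single]
    rw [← Int.cast_smul_eq_zsmul ℝ]
    rfl
  have h2 : ∀ g, |x (c * g)| = |x g| := fun g => by
    rw [← h1 g, abs_mul]
    rcases Int.eq_one_or_neg_one_of_mul_eq_one hn with rfl | rfl <;> simp
  ext g
  have := const_orbit (fun g => |x g|) (by simpa using (mem_iff _).1 x.2) c hc h2 g
  simpa using this

end L2

end Pool.Agent.Lib.MP_d98eb9_al.W
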