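import Pool.Agent.Lib.MP_d98eb9_al.E.Star
import Pool.Agent.Lib.MP_d98eb9_al.E.Tr
import Pool.Agent.Lib.MP_7903c7_al.PT.Main
import Pool.Agent.Lib.MP_7903c7_al.B.Fin

/-! A nontrivial subgroup of type `FP_2` that fixes an end maps nontrivially to `ℤ`. -/

namespace Pool.Agent.Lib.MP_d98eb9_al.W

open MonoidAlgebra L2 Linnell

section Alg

variable {H : Type} [Group H]

/-- Over a torsion-free group the trace of an idempotent is the trace of its augmentation. -/
theorem trace_aug (tf : ∀ g : H, IsOfFinOrder g → g = 1) {m : ℕ}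
    (M : Matrix (Fin m) (Fin m) (ZG H)) (hM : IsIdempotentElem M) :
    ∑ j, aug H (M j j) = ∑ j, (M j j).coeff 1 := by
  classical
  have bass : ∀ g : H, g ≠ 1 → ∑ i, ∑ᶠ (h : H) (_ : IsConj h g), (M i i).coeff h = 0 :=
    fun g hg => Pool.Agent.Lib.MP_7903c7_al.Fin.of_core
      (fun h0 _ _ _ hp _ _ _ hA' => Pool.Agent.Lib.MP_7903c7_al.PT.core hp.out hA' h0) hM (by
        rw [orderOf_eq_zero fun h => hg (tf g h)]
        simp)
  let S : Finset H := insert 1 (Finset.univ.biUnion fun j => (M j j).coeff.support)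
  have hS : ∀ j, (M j j).coeff.support ⊆ S := fun j h hh =>
    Finset.mem_insert_of_mem (Finset.mem_biUnion.2 ⟨j, Finset.mem_univ j, hh⟩)
  have h1 : ∀ j, aug H (M j j) = ∑ h ∈ S, (M j j).coeff h := fun j => by
    have h := lsum_const (1 : ℤ) (M j j)
    rw [lsum_eq] at h
    simp only [smul_eq_mul, mul_one] at h
    rw [← h]
    exact Finset.sum_subset (hS j) fun g _ hg => Finsupp.notMem_support_iff.mp hg
  have h2 : ∀ j, ∑ h ∈ S, (M j j).coeff h = ∑ c ∈ S.image ConjClasses.mk,
      ∑ h ∈ S with ConjClasses.mk h = c, (M j j).coeff h := fun j =>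
    (Finset.sum_fiberwise_of_maps_to (fun h hh => Finset.mem_image_of_mem _ hh) _).symm
  simp only [h1, h2]
  rw [Finset.sum_comm, Finset.sum_eq_single (ConjClasses.mk 1)]
  · refine Finset.sum_congr rfl fun j _ => ?_
    rw [Finset.sum_eq_single 1]
    · intro h hh hne
      exact absurd (isConj_one_right.1 (ConjClasses.mk_eq_mk_iff_isConj.1
        (Finset.mem_filter.1 hh).2).symm) hne
    · intro h
      exact (h (Finset.mem_filter.2 ⟨Finset.mem_insert_self _ _, rfl⟩)).elim
  · intro c hc hne
    obtain ⟨g, -, rfl⟩ := Finset.mem_image.1 hc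
    rw [← bass g fun h => hne (by rw [h])]
    refine Finset.sum_congr rfl fun j _ => ?_
    rw [finsum_eq_sum_of_support_subset (s := S), Finset.sum_filter]
    · refine Finset.sum_congr rfl fun h _ => ?_
      rw [finsum_eq_if]
      exact if_congr ConjClasses.mk_eq_mk_iff_isConj rfl rfl
    · intro h hh
      refine hS j (Finsupp.mem_support_iff.2 fun h0 => hh ?_)
      simp [h0]
  · intro h
    exact absurd (Finset.mem_image_of_mem _ (Finset.mem_insert_self _ _)) h

theorem le_trace {m n : ℕ} (M : Matrix (Fin m) (Fin m) ℤ) (D : Matrix (Fin m) (Fin n) ℤ)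
    (hM : M * M = M) (hD : M * D = D) (hinj : ∀ v, D.mulVec v = 0 → v = 0) :
    (n : ℤ) ≤ ∑ j, M j j := by
  have h1 : IsIdempotentElem (Matrix.toLin' M) := by
    change Matrix.toLin' M ∘ₗ Matrix.toLin' M = _
    rw [← Matrix.toLin'_mul, hM]
  have h2 := (LinearMap.IsIdempotentElem.isProj_range _ h1).trace
  rw [Matrix.trace_toLin'_eq] at h2
  have h3 := LinearMap.finrank_le_finrank_of_injective
    (f := (Matrix.toLin' D).codRestrict (LinearMap.range (Matrix.toLin' M)) fun v =>
      ⟨Matrix.toLin' D v, by rw [← Matrix.toLin'_mul_apply, hD]⟩)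
    ((injective_iff_map_eq_zero _).2 fun v hv => hinj v (congrArg Subtype.val hv))
  change (n : ℤ) ≤ M.trace
  rw [h2]
  simpa using h3

theorem end_alg (tf : ∀ g : H, IsOfFinOrder g → g = 1) {n : ℕ} (t : Fin n → H)
    (ht : Subgroup.closure (Set.range t) = ⊤) (hne : ∃ i, t i ≠ 1)
    [Module.Finite (ZG H) (LinearMap.ker (bd t))] [Module.Projective (ZG H) (LinearMap.ker (bd t))]
    (star : ∀ (m : ℕ) (p : Fin m → LinearMap.ker (bd t)) (a : Fin m → E H),
      (∀ i, ∑ j, T ((p j).1 i) (a j) = 0) → ∀ l : LinearMap.ker (bd t) →ₗ[ZG H] ZG H,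
        ∑ j, T (l (p j)) (a j) = 0) : ∃ φ : H →* Multiplicative ℤ, φ ≠ 1 := by
  classical
  by_contra hb
  push Not at hb
  obtain ⟨m, f, g, -, -, hfg⟩ := Module.Finite.exists_comp_eq_id_of_projective (ZG H)
    (LinearMap.ker (bd t))
  let p : Fin m → LinearMap.ker (bd t) := fun j => f (Pi.single j 1)
  have hp : ∀ κ, ∑ j, g κ j • p j = κ := fun κ => by
    conv_rhs => rw [← LinearMap.id_apply (R := ZG H) κ, ← hfg, LinearMap.comp_apply,
      ← Finset.univ_sum_single (g κ), map_sum]
    refine Finset.sum_congr rfl fun j _ => ?_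
    rw [← map_smul, ← Pi.single_smul, smul_eq_mul, mul_one]
  let M : Matrix (Fin m) (Fin m) (ZG H) := Matrix.of fun j k => g (p j) k
  have hM : ∀ j k, ∑ i, M j i * M i k = M j k := fun j k => by
    change _ = g (p j) k
    conv_rhs => rw [← hp (p j), map_sum]
    simp [M]
  have hD : ∀ j k, ∑ i, M j i * (p i).1 k = (p j).1 k := fun j k => by
    conv_rhs => rw [← hp (p j)]
    simp [M]
  have hbd : ∀ x : Fin n →₀ ZG H, bd t x = ∑ i, x i * (single (t i) 1 - 1) := fun x => by
    simp [bd, Finsupp.linearCombination_apply, Finsupp.sum_fintype]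
  have h1 := le_trace (M.map (aug H)) (Matrix.of fun j i => aug H ((p j).1 i))
    (by ext j k; simp [Matrix.mul_apply, ← map_mul, ← map_sum, hM])
    (by ext j k; simp [Matrix.mul_apply, ← map_mul, ← map_sum, hD]) fun v hv => by
      let φ : Fr H n →+ ℤ := AddMonoidHom.mk' (fun x => ∑ i, aug H (x i) * v i) fun x y => by
        simp [add_mul, Finset.sum_add_distrib]
      obtain ⟨u, hu⟩ := exists_pot t ht φ fun x hx => by
        have h2 : x = ∑ j, g ⟨x, hx⟩ j • (p j).1 := by
          simpa using (congrArg Subtype.val (hp ⟨x, hx⟩)).symm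
        rw [h2, map_sum]
        refine Finset.sum_eq_zero fun j _ => ?_
        have h3 : ∑ i, aug H ((p j).1 i) * v i = 0 := congrFun hv j
        simp [φ, mul_assoc, ← Finset.mul_sum, h3]
      have h2 : ∀ a i, u (a * t i) - u a = v i := fun a i => by
        rw [← Loc.lsum_bd_e, ← hu]
        simp [φ, e, Finsupp.single_apply, apply_ite]
      have h3 : ∀ b a, u (a * b) - u a = u b - u 1 := fun b => by
        have hb' : b ∈ Subgroup.closure (Set.range t) := ht ▸ Subgroup.mem_top b
        induction hb' using Subgroup.closure_induction_right with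
        | one => simp
        | mul_right b _ x hx ih =>
          obtain ⟨i, rfl⟩ := hx
          intro a
          have := h2 (a * b) i
          have := h2 b i
          have := ih a
          rw [← mul_assoc]
          omega
        | mul_inv_cancel b _ x hx ih =>
          obtain ⟨i, rfl⟩ := hx
          intro a
          have e1 := h2 (a * (b * (t i)⁻¹)) i
          have e2 := h2 (b * (t i)⁻¹) i
          have := ih a
          simp only [mul_assoc, inv_mul_cancel, mul_one] at e1 e2
          omega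
      let ψ : H →* Multiplicative ℤ := MonoidHom.mk' (fun a => Multiplicative.ofAdd (u a - u 1))
        fun a b => by
          rw [← ofAdd_add]
          have := h3 b a
          congr 1
          omega
      funext i
      have h4 : u (t i) - u 1 = 0 := congrArg Multiplicative.toAdd (DFunLike.congr_fun (hb ψ) (t i))
      rw [← h2 1 i, one_mul, h4]
      rfl
  have h2 := trace_aug tf M (Matrix.ext fun j k => by rw [Matrix.mul_apply, hM])
  have hN : ∀ j k, ∑ i, (1 - M) j i * (1 - M) i k = (1 - M) j k := fun j k => by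
    have : (1 - M) * (1 - M) = 1 - M :=
      IsIdempotentElem.one_sub (Matrix.ext fun j k => by rw [Matrix.mul_apply, hM])
    rw [← Matrix.mul_apply, this]
  have h3 := card_le_trace (ι := Fin m ⊕ Unit) (κ := Fin n ⊕ Fin m)
    (Matrix.fromBlocks (Matrix.of fun j i => (p j).1 i) (1 - M)
      (Matrix.of fun _ i => single (t i)⁻¹ 1 - 1) 0) (Matrix.fromBlocks 1 0 0 (1 - M))
    (by rintro (i | i) (k | k) <;> simp [Matrix.one_apply, -Matrix.sub_apply, hN])
    (by rintro (i | i) (k | k) <;> simp [Matrix.one_apply, -Matrix.sub_apply, hN]) fun x hx => by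
      have e1 : ∀ i, ∑ j, T ((p j).1 i) (x (.inl j)) = -T (single (t i)⁻¹ 1 - 1) (x (.inr ())) :=
        fun i => add_eq_zero_iff_eq_neg.1 (by simpa using hx (.inl i))
      have e2 : ∑ i, T (single (t i) 1 - 1) (∑ j, T ((p j).1 i) (x (.inl j))) = 0 := by
        simp only [map_sum, T_mul]
        rw [Finset.sum_comm]
        refine Finset.sum_eq_zero fun j _ => ?_
        rw [← sum_apply, ← map_sum, ← hbd, LinearMap.mem_ker.1 (p j).2, map_zero]
        rfl
      have e3 : ∑ i, ‖T (single (t i)⁻¹ 1 - 1) (x (.inr ()))‖ ^ 2 = 0 := by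
        have := congrArg (inner ℝ (x (.inr ()))) e2
        rw [inner_zero_right, inner_sum] at this
        rw [← neg_eq_zero, ← this, ← Finset.sum_neg_distrib]
        refine Finset.sum_congr rfl fun i _ => ?_
        rw [e1, map_neg, inner_neg_right, neg_inj, ← inner_T', real_inner_self_eq_norm_sq]
      have e4 : ∀ i, T (single (t i)⁻¹ 1 - 1) (x (.inr ())) = 0 := fun i => by
        have := (Finset.sum_eq_zero_iff_of_nonneg fun i _ => sq_nonneg _).1 e3 i (Finset.mem_univ i)
        simpa using this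
      rintro (k | ⟨⟨⟩⟩)
      · have e5 := star m p (fun j => x (.inl j)) (fun i => by rw [e1, e4, neg_zero])
          (LinearMap.proj k ∘ₗ g)
        have e6 := hx (.inr k)
        simp only [Fintype.sum_sum_type, Matrix.fromBlocks_apply₁₂, Matrix.fromBlocks_apply₂₂,
          Matrix.sub_apply, map_sub, sub_apply, Finset.sum_sub_distrib,
          Matrix.zero_apply, map_zero, zero_apply, Finset.sum_const_zero,
          add_zero] at e6
        rw [show ∑ j, T (M j k) (x (.inl j)) = 0 from e5, sub_zero, Finset.sum_eq_single k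
          (fun j _ hj => by simp [Matrix.one_apply_ne hj]) (by simp), Matrix.one_apply_eq,
          T_one] at e6
        exact e6
      · obtain ⟨i, hi⟩ := hne
        refine fix_zero _ (c := (t i)⁻¹) (fun h => hi (tf _ (isOfFinOrder_inv_iff.1 h))) (mul_one 1) ?_
        have := e4 i
        rwa [map_sub, sub_apply, T_one, sub_eq_zero] at this
  simp only [Matrix.map_apply, h2] at h1
  simp [Finset.sum_sub_distrib] at h3
  omega

end Alg

variable {G : Type} [Group G] {Γ : Gen G} {J : Subgroup G}

theorem Geo.hom_of_fp2 (X : Geo Γ) (hfg : J.FG) (hfp : IsFP2 J) (hne : J ≠ ⊥)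
    (hE : ∀ r, ∃ U, Γ.Comp (Γ.N r J) U ∧ ∀ c ∈ J, tr c U = U) :
    ∃ φ : J →* Multiplicative ℤ, φ ≠ 1 := by
  obtain ⟨k, t, ht⟩ := exists_gen_family hfg
  have tf : ∀ g : J, IsOfFinOrder g → g = 1 := fun g hg =>
    Subtype.ext (X.tf g (J.subtype.isOfFinOrder hg))
  obtain ⟨c, hc⟩ := Subgroup.ne_bot_iff_exists_ne_one.1 hne
  have hJ : (J : Set G).Infinite := fun h => by
    have : Finite J := h
    exact hc (tf c (isOfFinOrder_of_finite c))
  have := Gen.infinite_quot (Γ := Γ) (J := J) fun ⟨r, hr⟩ => by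
    obtain ⟨U, ⟨x, hx, -⟩, -⟩ := hE r
    exact hx (hr trivial)
  have := X.ker_proj J t ht
  have := hfp.ker_finite t ht
  refine end_alg tf t ht ?_ fun m p a h l => X.star hJ hE act (fun a r s => T_mul r s a)
    (fun a c h => ?_) t ht p a h l
  · by_contra h
    push Not at h
    have : c ∈ (⊥ : Subgroup J) := (Subgroup.closure_le _).2 (by
      rintro _ ⟨i, rfl⟩
      exact h i) (ht ▸ Subgroup.mem_top c)
    exact hc this
  · by_cases h1 : c = 1
    · exact Or.inr h1
    · exact Or.inl (fix_zero a (fun h2 => h1 (tf _ (isOfFinOrder_inv_iff.1 h2)))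
        (w_mul_inv X.w c) h)

end Pool.Agent.Lib.MP_d98eb9_al.W
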