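import Pool.Agent.Lib.MP_d98eb9_al.W.Rank

/-! With a fixed end, relations among relators that hold in the free module hold in the
relation module. -/

namespace Pool.Agent.Lib.MP_d98eb9_al.W

open MonoidAlgebra Gen

variable {G : Type} [Group G] {Γ : Gen G} {J : Subgroup G}

theorem Geo.star (X : Geo Γ) (hJ : (J : Set G).Infinite)
    (hE : ∀ r, ∃ U, Γ.Comp (Γ.N r J) U ∧ ∀ c ∈ J, tr c U = U)
    {A : Type} [AddCommGroup A] (act : A →+ ZG J →+ A)
    (mul : ∀ a r s, act (act a r) s = act a (r * s))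
    (inj : ∀ a (c : J), act a (single c⁻¹ (X.w c)) = a → a = 0 ∨ c = 1)
    {k : ℕ} (t : Fin k → J) (ht : Subgroup.closure (Set.range t) = ⊤)
    {ι : Type} [Fintype ι] (p : ι → LinearMap.ker (bd t)) (a : ι → A)
    (h0 : ∀ i, ∑ j, act (a j) ((p j).1 i) = 0) (l : LinearMap.ker (bd t) →ₗ[ZG J] ZG J) :
    ∑ j, act (a j) (l (p j)) = 0 := by
  classical
  have hinf : ¬ Γ.Near Set.univ J := fun ⟨r, hr⟩ => by
    obtain ⟨U, ⟨x, hx, -⟩, -⟩ := hE r
    exact hx (hr trivial)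
  have := infinite_quot hinf
  have := X.ker_proj J t ht
  obtain ⟨D⟩ := X.dual J
  obtain ⟨α⟩ := exists_alpha D t this
  obtain ⟨β⟩ := exists_beta α ht
  obtain ⟨B⟩ := exists_DB (G := G) (Fr G Γ.n)
  have h1 : ∀ ν : (Fin k →₀ ZG J) →ₗ[ZG J] ZG J, ∑ j, act (a j) (ν (p j)) = 0 :=
    Rep.rel_map (fun j => act (a j)) (fun j => (p j).1) fun i r => by
      have := congrArg (fun x => act x r) (h0 i)
      simpa [mul] using this
  let Φ : Fr G Γ.n →+ A := ∑ j, (act (a j)).comp ((pr X.w J).comp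
    (α.α2 (p j)).ev.toAddMonoidHom)
  have hΦ : ∀ x, Φ x = ∑ j, act (a j) (prAt X.w J x (α.α2 (p j))) := fun x => by simp [Φ]
  obtain ⟨u0, hu0⟩ := exists_pot Γ.s Γ.gen Φ fun x hx => by
    obtain ⟨z, rfl⟩ := (X.ex1 x).mp hx
    rw [hΦ, ← h1 (prAt X.w J z ∘ₗ α.α1)]
    exact Finset.sum_congr rfl fun j _ => by rw [LinearMap.comp_apply, ← α.h2]; rfl
  obtain ⟨r, hr⟩ := bdd_of_finite (Γ := Γ) (Set.finite_iUnion fun j => co_finite (α.α2 (p j)).ev) 1
  obtain ⟨U, ⟨x0, hx0, hU⟩, hU'⟩ := hE r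
  obtain ⟨u, hu1, hu⟩ : ∃ u : G → A, u x0 = 0 ∧ ∀ x, Φ x = lsum u (bd Γ.s x) :=
    ⟨fun g => u0 g - u0 x0, sub_self _, fun x => (hu0 x).trans
      (fr_ext (φ := (lsum u0).comp (bd Γ.s).toAddMonoidHom)
        (ψ := (lsum fun g => u0 g - u0 x0).comp (bd Γ.s).toAddMonoidHom)
        (fun g i => by simp [bd_e]) x)⟩
  have he : ∀ g i, Φ (e g i) = u (g * Γ.s i) - u g := fun g i => by simp [hu, bd_e]
  have h4 : ∀ g i, g ∉ Γ.N r J → u (g * Γ.s i) = u g := fun g i hg => by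
    rw [← sub_eq_zero, ← he, hΦ]
    refine Finset.sum_eq_zero fun j _ => ?_
    rw [prAt_eq_zero (Z := Γ.N r J) (fun c hc g hg => (mul_mem_N hc).mpr hg) _
      (fun g i hg => by_contra fun h => hg ⟨1, J.one_mem, hr g (Set.mem_iUnion.mpr ⟨j, i, h⟩)⟩)
      hg, map_zero]
  have hz : ∀ c : J, u (c * x0) = 0 := fun c => by
    have h5 : (c : G) * x0 ∈ U := by
      rw [← hU' c c.2, mul_mem_tr, hU]
      exact Conn.refl _ _
    rw [hU] at h5
    rw [PD.const_conn u h4 h5, hu1]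
  have hc : ∀ (c : J) g, u (c * g) = act (u g) (single c⁻¹ (X.w c)) := fun c g => by
    have := PD.const_conn (Γ := Γ) (fun g => u (c * g) - act (u g) (single c⁻¹ (X.w c))) (Z := ∅)
      (fun g i _ => by
        have e1 : Φ (e (c * g) i) = act (Φ (e g i)) (single c⁻¹ (X.w c)) := by
          rw [hΦ, hΦ, map_sum, AddMonoidHom.finsetSum_apply]
          refine Finset.sum_congr rfl fun j _ => ?_
          rw [mul, prAt_apply, prAt_apply, ← smul_e, map_smul, smul_eq_mul, pr_mul_left]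
        rw [he, he, map_sub, AddMonoidHom.sub_apply, mul_assoc] at e1
        linear_combination (norm := abel) e1) (conn_empty x0 g)
    simp only [hu1, hz, map_zero, AddMonoidHom.zero_apply, sub_zero] at this
    exact sub_eq_zero.mp this
  obtain ⟨r', hr'⟩ := vanish_far (Γ := Γ) X.oe hJ u
    (fun c hc' g hg => by simpa [hg] using hc ⟨c, hc'⟩ g)
    (fun c hc' g hg e => by
      have e1 := hc ⟨c, hc'⟩ g
      exact congrArg Subtype.val ((inj (u g) ⟨c, hc'⟩ (e1.symm.trans e)).resolve_left hg))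
    (r := r) h4
  obtain ⟨T, _, b, q, hq⟩ := repr0 (Γ := Γ) (J := J) X.w u hr'
  have h2 := PD.rel3 B (T3 := Empty) (fun j => act (a j)) (fun j => α.α2 (p j)) b
    (fun t => Du.map X.w J (bd Γ.s) (q t)) Empty.elim Empty.elim
    (fun x => by rw [← hΦ, hu, hq]; simp) (l ∘ₗ β.β2)
  have h3 : ∀ t, β.β2 (Du.map X.w J (bd Γ.s) (q t)) = 0 := fun t => Subtype.ext (by
    rw [β.hβ, show Du.map X.w J X.d1 (Du.map X.w J (bd Γ.s) (q t)) = 0 from
      Du.ext fun z => by simp [X.ex1.apply_apply_eq_zero], map_zero]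
    rfl)
  simp only [LinearMap.comp_apply, h3, map_zero, Finset.sum_const_zero, Finset.univ_eq_empty,
    Finset.sum_empty, add_zero] at h2
  rw [← add_zero (0 : A)]
  nth_rw 1 [← h2]
  rw [← h1 (l ∘ₗ β.k1), ← Finset.sum_add_distrib]
  refine Finset.sum_congr rfl fun j _ => ?_
  conv_lhs => rw [β.hk (p j)]
  simp only [map_add, LinearMap.comp_apply]

end Pool.Agent.Lib.MP_d98eb9_al.W
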